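import Pool.Agent.K6.H45.EA.Den

/-!
# Sums of two indices of prime pairs with a common bounded difference

Q1 asks for decompositions `n = k + m` for which `6 k - 1` and `p_m` both are primes `q` such that `q + 2` is
prime. Here the difference `2` is replaced by a difference `h ≤ H`, THE SAME one for both summands.

Theorem. There are `C` and `δ > 0` such that for every large `H` there is `c > 0` such that for all large `X` at
least `δ H` of the differences `h ≤ H` have the following property: at least `c X / (log log log log X) ^ C` of the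
integers `n` with `X < n ≤ 10 X` can be written as `n = k + m` with `k, m ≥ 1`, `m ≤ (log X) ^ C` such that the four
numbers `6 k - 1`, `6 k - 1 + h`, `p_m` and `p_m + h` are prime. Consequently, a set of differences `h` of positive
lower density has this property for arbitrarily large `X`.

Proof. The coloured Maynard-Tao theorem with the right order of magnitude and without small prime factors for the
forms `6 n + 6 g_i - 1` (`Pool.Agent.N646.RG.Lam.lamR1`, starting files) gives so many simultaneous primes that it
can be applied a second time, at the scale `(log X) ^ O(1)`, to the forms `n + 6 g_i` with the `g_i` of these primes.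
The second moment of the number of the decompositions is bounded with the upper bound sieve for `2 g` linear forms
and an average of its singular series over the differences of an arbitrary set of indices of density
`(log y) ^ (- B)` (`K6/H45/EA`).
-/

set_option autoImplicit false

namespace Pool.Agent.Results.MP_ea8352_nt.CommonDifference

open Finset Filter

/-- the `m`-th prime: `p 1 = 2`, `p 2 = 3`, ... -/
noncomputable def p (m : ℕ) : ℕ := Nat.nth Nat.Prime (m - 1)

open Classical in
/-- the number of the integers `n` with `X < n ≤ 10 X` which have a decomposition `n = k + m` with `k, m ≥ 1` and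
`m ≤ (log X) ^ C` such that `6 k - 1`, `6 k - 1 + h`, `p m` and `p m + h` are prime -/
noncomputable def count (C h X : ℕ) : ℕ :=
  ((Ioc X (10 * X)).filter (fun n => ∃ k m : ℕ, 1 ≤ k ∧ 1 ≤ m ∧ k + m = n ∧
    (m : ℝ) ≤ Real.log X ^ C ∧ (6 * k - 1).Prime ∧ (6 * k - 1 + h).Prime ∧
    (p m).Prime ∧ (p m + h).Prime)).card

/-- the difference `h` is good for `X` -/
def Good (C : ℕ) (c : ℝ) (X h : ℕ) : Prop :=
  c * X / Real.log (Real.log (Real.log (Real.log X))) ^ C ≤ (count C h X : ℝ)

lemma count_eq (C h X : ℕ) : count C h X = Pool.Agent.K6.H45.EA.cnt C h X := by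
  classical
  unfold count Pool.Agent.K6.H45.EA.cnt
  congr 1
  apply filter_congr
  intro n _
  unfold Pool.Agent.K6.H45.EA.Dec Pool.Agent.K6.H45.EA.pr p
  constructor
  · rintro ⟨k, m, h1, h2, h3, h4, h5, h6, -, h8⟩
    exact ⟨k, m, h1, h2, h3, h4, h5, h6, h8⟩
  · rintro ⟨k, m, h1, h2, h3, h4, h5, h6, h8⟩
    exact ⟨k, m, h1, h2, h3, h4, h5, h6, Nat.prime_nth_prime _, h8⟩

open Classical in
/-- **Sums of two indices of prime pairs with a common bounded difference.** There are `C` and `δ > 0` such that
for every large `H`: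
(1) there is `c > 0` such that for all large `X` at least `δ H` of the `h ≤ H` are good: at least
`c X / (log log log log X) ^ C` of the `n` with `X < n ≤ 10 X` are of the form `n = k + m`, `m ≤ (log X) ^ C`, with
`6 k - 1`, `6 k - 1 + h`, `p_m`, `p_m + h` prime;
(2) at least `δ H` of the `h ≤ H` are, for some `c > 0`, good for arbitrarily large `X`. -/
theorem result : ∃ (C : ℕ) (δ : ℝ), 0 < δ ∧ ∃ H₀ : ℕ, ∀ H : ℕ, H₀ ≤ H →
    (∃ c : ℝ, 0 < c ∧ ∀ᶠ X : ℕ in atTop,
      δ * H ≤ (((Icc 1 H).filter (fun h => Good C c X h)).card : ℝ)) ∧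
    δ * H ≤ (((Icc 1 H).filter (fun h => ∃ c : ℝ, 0 < c ∧ ∃ᶠ X : ℕ in atTop, Good C c X h)).card : ℝ) := by
  obtain ⟨C, δ, hδ, H₀, hd⟩ := Pool.Agent.K6.H45.EA.dens
  refine ⟨C, δ, hδ, H₀, fun H hH => ?_⟩
  obtain ⟨c, hc, hX⟩ := hd H hH
  have h1 : ∀ᶠ X : ℕ in atTop, δ * H ≤ (((Icc 1 H).filter (fun h => Good C c X h)).card : ℝ) := by
    filter_upwards [hX] with X hX
    refine hX.trans (le_of_eq ?_)
    congr 2
    apply filter_congr
    intro h _
    unfold Good Pool.Agent.K6.H45.EA.l4
    rw [count_eq]
  refine ⟨⟨c, hc, h1⟩, ?_⟩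
  have h2 : ∀ᶠ X : ℕ in atTop, ∀ h ∈ (Icc 1 H).filter
      (fun h => ¬ ∃ c : ℝ, 0 < c ∧ ∃ᶠ X : ℕ in atTop, Good C c X h), ¬ Good C c X h := by
    rw [Filter.eventually_all_finset]
    intro h hh
    have h3 := (mem_filter.1 hh).2
    push Not at h3
    exact h3 c hc
  obtain ⟨X, h3, h4⟩ := (h1.and h2).exists
  refine h3.trans ?_
  rw [Nat.cast_le]
  apply card_le_card
  intro h hh
  obtain ⟨h5, h6⟩ := mem_filter.1 hh
  refine mem_filter.2 ⟨h5, ?_⟩
  by_contra h7
  exact h4 h (mem_filter.2 ⟨h5, h7⟩) h6

end Pool.Agent.Results.MP_ea8352_nt.CommonDifference
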