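import Pool.Agent.TH685.TI.TwinB
import Pool.Agent.TH685.TI.Gen

/-!
# Typical integers have no admissible decomposition with a small second summand

`n = k + m` is admissible if `6 k - 1` and `p_m` both are the lower members of twin prime pairs. In every
interval `(Y, Y + X]` all but at most `ε X` integers `n` have no admissible decomposition with
`m ≤ c (log X)² log log X`; the same is true for almost admissible decompositions (twin primes replaced by a
prime `q` such that all prime factors of `q + 2` are larger than `q ^ (1 / r)`), for which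
`AlmostAdmissible` (starting file) shows that `m ≤ (log X)² (log log X)⁴` is possible for many `n`.
-/

set_option autoImplicit false

namespace Pool.Agent.Results.MP_ea8352_nt.LeastSummand

open Finset Filter Pool.Agent.TH685.TI Pool.Agent.TH685.Gen

/-- `q` is prime, and every prime factor `p` of `q + 2` satisfies `p ^ r > q`. -/
def AlmostTwin (r q : ℕ) : Prop := q.Prime ∧ ∀ p : ℕ, p.Prime → p ∣ q + 2 → q < p ^ r

lemma length_le (r q : ℕ) (h : AlmostTwin r q) :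
    (q + 2).primeFactorsList.length ≤ 2 * r := by
  obtain ⟨hq, h⟩ := h
  obtain ⟨l, hl⟩ : ∃ l : List ℕ, l = (q + 2).primeFactorsList := ⟨_, rfl⟩
  have hprod : l.prod = q + 2 := by
    rw [hl]; exact Nat.prod_primeFactorsList (by omega)
  have hall : ∀ p ∈ l, q < p ^ r := fun p hp => by
    rw [hl] at hp
    exact h p (Nat.prime_of_mem_primeFactorsList hp) (Nat.dvd_of_mem_primeFactorsList hp)
  have hpw : ∀ l : List ℕ, (∀ p ∈ l, q < p ^ r) → (q + 1) ^ l.length ≤ l.prod ^ r := by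
    intro l
    induction l with
    | nil => intro _; simp
    | cons a t ih =>
      intro hl
      rw [List.length_cons, List.prod_cons, pow_succ, mul_pow, mul_comm]
      exact Nat.mul_le_mul (hl a (by simp)) (ih (fun p hp => hl p (by simp [hp])))
  have h1 := hpw l hall
  rw [hprod] at h1
  rw [← hl]
  by_contra hcon
  push Not at hcon
  have hq2 := hq.two_le
  have h2 : (q + 1) ^ (2 * r + 1) ≤ (q + 2) ^ r :=
    (Nat.pow_le_pow_right (by omega) hcon).trans h1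
  have h3 : (q + 2) ^ r ≤ ((q + 1) ^ 2) ^ r := Nat.pow_le_pow_left (by nlinarith) r
  rw [← pow_mul] at h3
  have h4 : (q + 1) ^ (2 * r) < (q + 1) ^ (2 * r + 1) := Nat.pow_lt_pow_right (by omega) (by omega)
  omega

lemma at_of (r q : ℕ) (hr : 1 ≤ r) (h : AlmostTwin r q) : At (2 * r) q := by
  refine ⟨h.1, Or.inl ⟨length_le r q h, fun l hl hd => ?_⟩⟩
  have h1 := h.2 l hl hd
  refine h1.trans_le ?_
  exact Nat.pow_le_pow_right hl.pos (by omega)

open Classical in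
/-- there are few almost twin primes -/
lemma thin (r : ℕ) (hr : 1 ≤ r) : Thin (AlmostTwin r) := by
  obtain ⟨C, hC, X₀, hX₀, h⟩ := at_interval (2 * r) (by omega)
  refine ⟨C + Real.log X₀ ^ 2, by positivity, fun x hx => ?_⟩
  have hxr : (2 : ℝ) ≤ x := by exact_mod_cast hx
  have hlx : 0 < Real.log x := Real.log_pos (by linarith)
  rcases le_or_gt X₀ x with hxX | hxX
  · have h1 := h x hxX 0
    rw [Nat.zero_add] at h1
    have h2 : {p : ℕ | p ≤ x ∧ p.Prime ∧ AlmostTwin r p} ⊆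
        (((Ioc 0 x).filter (At (2 * r)) : Finset ℕ) : Set ℕ) := by
      rintro p ⟨hp1, hp2, hp3⟩
      rw [mem_coe, mem_filter, mem_Ioc]
      exact ⟨⟨hp2.pos, hp1⟩, at_of r p hr hp3⟩
    have h3 := Set.ncard_le_ncard h2 (Finset.finite_toSet _)
    rw [Set.ncard_coe_finset] at h3
    have h4 : (Set.ncard {p : ℕ | p ≤ x ∧ p.Prime ∧ AlmostTwin r p} : ℝ) ≤
        (((Ioc 0 x).filter (At (2 * r))).card : ℝ) := by exact_mod_cast h3
    have h5 : 0 ≤ Real.log X₀ ^ 2 * (x / Real.log x ^ 2) := by positivity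
    rw [add_mul]
    linarith
  · have h2 : {p : ℕ | p ≤ x ∧ p.Prime ∧ AlmostTwin r p} ⊆ ((Icc 1 x : Finset ℕ) : Set ℕ) := by
      rintro p ⟨hp1, hp2, -⟩
      rw [mem_coe, mem_Icc]
      exact ⟨hp2.one_lt.le, hp1⟩
    have h3 := Set.ncard_le_ncard h2 (Finset.finite_toSet _)
    rw [Set.ncard_coe_finset, Nat.card_Icc, Nat.add_sub_cancel] at h3
    have h4 : (Set.ncard {p : ℕ | p ≤ x ∧ p.Prime ∧ AlmostTwin r p} : ℝ) ≤ x := by exact_mod_cast h3
    have h6 : Real.log x ≤ Real.log X₀ := Real.log_le_log (by linarith) (by exact_mod_cast hxX.le)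
    have h7 : Real.log x ^ 2 ≤ Real.log X₀ ^ 2 := pow_le_pow_left₀ hlx.le h6 2
    have h8 : (x : ℝ) ≤ Real.log X₀ ^ 2 * (x / Real.log x ^ 2) := by
      rw [mul_div_assoc', le_div_iff₀ (by positivity), mul_comm (Real.log _ ^ 2)]
      exact mul_le_mul_of_nonneg_left h7 (by linarith)
    have h9 : 0 ≤ C * (x / Real.log x ^ 2) := by positivity
    rw [add_mul]
    linarith

/-- few `k` in every interval -/
lemma few_k (r : ℕ) (hr : 1 ≤ r) : ∃ C : ℝ, 1 ≤ C ∧ ∃ X₀ : ℕ, ∀ X : ℕ, X₀ ≤ X → ∀ a : ℕ,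
    (Set.ncard {k : ℕ | a < k ∧ k ≤ a + X ∧ AlmostTwin r (6 * k - 1)} : ℝ) ≤
      C * (X / Real.log X ^ 2) := by
  classical
  obtain ⟨C, hC, X₀, hX₀, h⟩ := at_interval (2 * r) (by omega)
  refine ⟨6 * C, by linarith, X₀, fun X hX a => ?_⟩
  have hX3 : 3 ≤ X := hX₀.trans hX
  have hXr : (3 : ℝ) ≤ X := by exact_mod_cast hX3
  have h1 := h (6 * X) (by omega) (6 * a - 1)
  have h2 : Set.ncard {k : ℕ | a < k ∧ k ≤ a + X ∧ AlmostTwin r (6 * k - 1)} ≤
      Set.ncard (((Ioc (6 * a - 1) (6 * a - 1 + 6 * X)).filter (At (2 * r)) : Finset ℕ) : Set ℕ) := by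
    refine Set.ncard_le_ncard_of_injOn (fun k => 6 * k - 1) ?_ ?_ (Finset.finite_toSet _)
    · rintro k ⟨h1, h2, h3⟩
      rw [mem_coe, mem_filter, mem_Ioc]
      refine ⟨by omega, at_of r _ hr h3⟩
    · rintro k ⟨h1, -, -⟩ l ⟨h2, -, -⟩ h3
      simp only at h3
      omega
  rw [Set.ncard_coe_finset] at h2
  have h3 : (Set.ncard {k : ℕ | a < k ∧ k ≤ a + X ∧ AlmostTwin r (6 * k - 1)} : ℝ) ≤
      (((Ioc (6 * a - 1) (6 * a - 1 + 6 * X)).filter (At (2 * r))).card : ℝ) := by exact_mod_cast h2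
  refine h3.trans (h1.trans ?_)
  have h4 : 0 < Real.log X := Real.log_pos (by linarith)
  have h5 : Real.log X ≤ Real.log ((6 * X : ℕ) : ℝ) :=
    Real.log_le_log (by linarith) (by push_cast; linarith)
  have h6 : Real.log X ^ 2 ≤ Real.log ((6 * X : ℕ) : ℝ) ^ 2 := pow_le_pow_left₀ h4.le h5 2
  calc C * (((6 * X : ℕ) : ℝ) / Real.log ((6 * X : ℕ) : ℝ) ^ 2) ≤
        C * (((6 * X : ℕ) : ℝ) / Real.log X ^ 2) := by gcongr
    _ = 6 * C * (X / Real.log X ^ 2) := by push_cast; ring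

/-- the number of the elements of a set below a bound -/
lemma card_le_cn (U : ℕ → Prop) (B : ℝ) (hB : 0 ≤ B) (S : Finset ℕ) (hS : ∀ m ∈ S, 1 ≤ m ∧ U m)
    (h : ∀ m ∈ S, (cn U m : ℝ) ≤ B) : (S.card : ℝ) ≤ B + 1 := by
  rcases S.eq_empty_or_nonempty with h0 | h0
  · rw [h0, card_empty]
    push_cast
    linarith
  · have h1 := h _ (S.max'_mem h0)
    have h2 : (S.erase (S.max' h0)).card ≤ cn U (S.max' h0) := by
      unfold cn
      rw [← Set.ncard_coe_finset]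
      refine Set.ncard_le_ncard ?_ (fin_lt U _)
      intro m hm
      rw [mem_coe, mem_erase] at hm
      exact ⟨(hS m hm.2).1, lt_of_le_of_ne (S.le_max' m hm.2) hm.1, (hS m hm.2).2⟩
    rw [card_erase_of_mem (S.max'_mem h0)] at h2
    have h3 : S.card ≤ cn U (S.max' h0) + 1 := by omega
    have h4 : (S.card : ℝ) ≤ cn U (S.max' h0) + 1 := by exact_mod_cast h3
    linarith

/-- **Typical integers have no (almost) admissible decomposition with a small second summand.** For all `r`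
and `ε > 0` there is `c > 0` such that for all large `X` and ALL `Y` at most `ε X` of the integers `n` with
`Y < n ≤ Y + X` have a decomposition `n = k + m`, `k, m ≥ 1`, with `m ≤ c (log X)² log log X` and
`6 k - 1` and `p_m` primes `q` for which all prime factors of `q + 2` are larger than `q ^ (1 / r)`.
With `r = 1`, or any `r`, this includes the case that `6 k - 1, 6 k + 1` and `p_m, p_m + 2` are twin primes. -/
theorem result (r : ℕ) (hr : 1 ≤ r) (ε : ℝ) (hε : 0 < ε) : ∃ c : ℝ, 0 < c ∧ ∃ X₀ : ℕ, ∀ X : ℕ, X₀ ≤ X →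
    ∀ Y : ℕ, (Set.ncard {n : ℕ | Y < n ∧ n ≤ Y + X ∧ ∃ k m : ℕ, 1 ≤ k ∧ 1 ≤ m ∧ k + m = n ∧
        (m : ℝ) ≤ c * (Real.log X ^ 2 * Real.log (Real.log X)) ∧
        AlmostTwin r (6 * k - 1) ∧ AlmostTwin r (Nat.nth Nat.Prime (m - 1))} : ℝ) ≤ ε * X := by
  classical
  obtain ⟨C, hC, X₁, hk⟩ := few_k r hr
  obtain ⟨c₁, hc₁, hidx⟩ := idx _ (thin r hr)
  obtain ⟨c₂, hc₂⟩ : ∃ c₂ : ℝ, c₂ = ε / (2 * C) := ⟨_, rfl⟩
  have hc₂0 : 0 < c₂ := by rw [hc₂]; positivity
  refine ⟨c₁ * c₂ / 2, by positivity, ?_⟩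
  have hlogt : Tendsto (fun x : ℕ => Real.log (x : ℝ)) atTop atTop :=
    Real.tendsto_log_atTop.comp tendsto_natCast_atTop_atTop
  obtain ⟨X₀, hX₀⟩ := eventually_atTop.1 (((hlogt.eventually_ge_atTop (3 + 3 / c₂)).and
    (eventually_ge_atTop X₁)).and (eventually_ge_atTop 3))
  refine ⟨X₀, fun X hX Y => ?_⟩
  obtain ⟨⟨hL, hX1⟩, hX3⟩ := hX₀ X hX
  obtain ⟨L, hLd⟩ : ∃ L : ℝ, L = Real.log X := ⟨_, rfl⟩
  have hkX := hk X hX1
  rw [← hLd] at hL hkX ⊢
  have h3c : 0 < 3 / c₂ := by positivity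
  have hL3 : 3 ≤ L := by linarith
  have hL0 : 0 < L := by linarith
  have hLc : 3 ≤ c₂ * L := by
    have h1 : 3 / c₂ ≤ L := by linarith
    rw [div_le_iff₀ hc₂0] at h1
    linarith
  have hB3 : 3 ≤ c₂ * L ^ 2 := by
    calc (3 : ℝ) ≤ c₂ * L * 1 := by linarith
      _ ≤ c₂ * L * L := mul_le_mul_of_nonneg_left (by linarith) (by linarith)
      _ = c₂ * L ^ 2 := by ring
  have hlogL : 0 < Real.log L := Real.log_pos (by linarith)
  have hlogB : Real.log L ≤ Real.log (c₂ * L ^ 2) := by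
    apply Real.log_le_log hL0
    calc L = 1 * L := (one_mul L).symm
      _ ≤ (c₂ * L) * L := mul_le_mul_of_nonneg_right (by linarith) hL0.le
      _ = c₂ * L ^ 2 := by ring
  obtain ⟨y, hy⟩ : ∃ y : ℕ, y = ⌊c₁ * c₂ / 2 * (L ^ 2 * Real.log L)⌋₊ := ⟨_, rfl⟩
  obtain ⟨S, hS⟩ : ∃ S : Finset ℕ, S = (Icc 1 y).filter
    (fun m => AlmostTwin r (Nat.nth Nat.Prime (m - 1))) := ⟨_, rfl⟩
  have hyle : (y : ℝ) ≤ c₁ * c₂ / 2 * (L ^ 2 * Real.log L) := by
    rw [hy]
    exact Nat.floor_le (by positivity)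
  have hScard : (S.card : ℝ) ≤ c₂ * L ^ 2 + 1 := by
    apply card_le_cn (fun j => AlmostTwin r (Nat.nth Nat.Prime (j - 1))) _ (by positivity) S
    · intro m hm
      rw [hS, mem_filter, mem_Icc] at hm
      exact ⟨hm.1.1, hm.2⟩
    · intro m hm
      rw [hS, mem_filter, mem_Icc] at hm
      by_contra hcon
      push Not at hcon
      have h1 := hidx m hm.1.1 (c₂ * L ^ 2) hB3 hcon
      have h2 : (m : ℝ) ≤ y := by exact_mod_cast hm.1.2
      have h3 : c₁ * (c₂ * L ^ 2 * Real.log L) ≤ c₁ * (c₂ * L ^ 2 * Real.log (c₂ * L ^ 2)) := by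
        gcongr
      have h4 : 0 < c₁ * (c₂ * L ^ 2 * Real.log L) := by positivity
      have h5 : c₁ * c₂ / 2 * (L ^ 2 * Real.log L) = c₁ * (c₂ * L ^ 2 * Real.log L) / 2 := by ring
      rw [h5] at hyle
      linarith
  have hScard2 : (S.card : ℝ) ≤ 2 * (c₂ * L ^ 2) := by linarith
  -- the integers
  obtain ⟨K, hK⟩ : ∃ K : ℕ → Finset ℕ, ∀ m, K m = (Ioc (Y - m) (Y - m + X)).filter
      (fun k => AlmostTwin r (6 * k - 1)) := ⟨_, fun _ => rfl⟩
  have hsub : {n : ℕ | Y < n ∧ n ≤ Y + X ∧ ∃ k m : ℕ, 1 ≤ k ∧ 1 ≤ m ∧ k + m = n ∧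
        (m : ℝ) ≤ c₁ * c₂ / 2 * (L ^ 2 * Real.log L) ∧
        AlmostTwin r (6 * k - 1) ∧ AlmostTwin r (Nat.nth Nat.Prime (m - 1))} ⊆
      ((S.biUnion (fun m => (K m).image (fun k => k + m)) : Finset ℕ) : Set ℕ) := by
    rintro n ⟨h1, h2, k, m, h3, h4, h5, h6, h7, h8⟩
    rw [mem_coe, mem_biUnion]
    refine ⟨m, ?_, ?_⟩
    · rw [hS, mem_filter, mem_Icc]
      refine ⟨⟨h4, ?_⟩, h8⟩
      rw [hy]
      exact Nat.le_floor h6
    · rw [mem_image]
      refine ⟨k, ?_, h5⟩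
      rw [hK, mem_filter, mem_Ioc]
      exact ⟨by omega, h7⟩
  have h1 := Set.ncard_le_ncard hsub (Finset.finite_toSet _)
  rw [Set.ncard_coe_finset] at h1
  have h2 : (S.biUnion (fun m => (K m).image (fun k => k + m))).card ≤ ∑ m ∈ S, (K m).card :=
    card_biUnion_le.trans (Finset.sum_le_sum fun m _ => card_image_le)
  have h3 : ∀ m ∈ S, ((K m).card : ℝ) ≤ C * (X / L ^ 2) := by
    intro m _
    refine le_trans (le_of_eq ?_) (hkX (Y - m))
    rw [Nat.cast_inj, ← Set.ncard_coe_finset]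
    congr 1
    ext k
    rw [mem_coe, hK, mem_filter, mem_Ioc]
    simp only [Set.mem_ofPred_eq, and_assoc]
  have h4 : (Set.ncard {n : ℕ | Y < n ∧ n ≤ Y + X ∧ ∃ k m : ℕ, 1 ≤ k ∧ 1 ≤ m ∧ k + m = n ∧
        (m : ℝ) ≤ c₁ * c₂ / 2 * (L ^ 2 * Real.log L) ∧
        AlmostTwin r (6 * k - 1) ∧ AlmostTwin r (Nat.nth Nat.Prime (m - 1))} : ℝ) ≤
      ∑ m ∈ S, ((K m).card : ℝ) := by exact_mod_cast h1.trans h2
  refine h4.trans ((Finset.sum_le_sum h3).trans ?_)
  rw [Finset.sum_const, nsmul_eq_mul]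
  have hX0 : (0 : ℝ) ≤ X := Nat.cast_nonneg _
  calc (S.card : ℝ) * (C * (X / L ^ 2)) ≤ 2 * (c₂ * L ^ 2) * (C * (X / L ^ 2)) := by
        apply mul_le_mul_of_nonneg_right hScard2
        positivity
    _ = 2 * C * c₂ * X := by field_simp
    _ = ε * X := by rw [hc₂]; field_simp

end Pool.Agent.Results.MP_ea8352_nt.LeastSummand
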