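import Pool.Agent.K6.H45.EA.Mix2

/-!
# A pair of primes with a bounded difference and the index of an almost twin prime

Q1 asks for decompositions `n = k + m` for which `6 k - 1` and `p_m` both are primes `q` such that `q + 2` is
prime. Here `p_m` is a prime for which `p_m + 2` has at most `r` prime factors, all of them large, and `6 k - 1`,
`6 k - 1 + h` are prime for a bounded `h`.

Theorem. There is `r` such that the following holds, for a positive proportion of all differences `h ≤ H`, `H`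
large, and all large `X`. At least `c X / (log log log log X) ^ C` of the integers `n` with `X < n ≤ 10 X` can be
written as `n = k + m` with `m ≤ (log X) ^ C`, `6 k - 1`, `6 k - 1 + h` prime, `p_m` prime and `p_m + 2` an almost
prime. So the first summand runs through a set which is only known to contain `≫ X / (log X) ^ g` elements up
to `X`, while the sumset has an almost positive density.
-/

set_option autoImplicit false

namespace Pool.Agent.Results.MP_ea8352_nt.PairPlusTwin

open Finset Filter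

/-- the `m`-th prime: `p 1 = 2`, `p 2 = 3`, ... -/
noncomputable def p (m : ℕ) : ℕ := Nat.nth Nat.Prime (m - 1)

/-- `q` is prime, and `q + 2` has at most `r` prime factors (counted with multiplicity), each of
them, `l` say, with `l ^ r > q`. -/
def AlmostTwin (r q : ℕ) : Prop :=
  q.Prime ∧ (q + 2).primeFactorsList.length ≤ r ∧ ∀ l : ℕ, l.Prime → l ∣ q + 2 → q < l ^ r

/-- `q` and `q + h` are prime -/
def PrimePair (h q : ℕ) : Prop := q.Prime ∧ (q + h).Prime

open Classical in
/-- the number of the integers `n` with `X < n ≤ 10 X` which have a decomposition `n = k + m` with `k, m ≥ 1` and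
`m ≤ (log X) ^ C` such that `6 k - 1`, `6 k - 1 + h` are prime and `p m` is an almost twin prime -/
noncomputable def pairTwin (r C h X : ℕ) : ℕ :=
  ((Ioc X (10 * X)).filter (fun n => ∃ k m : ℕ, 1 ≤ k ∧ 1 ≤ m ∧ k + m = n ∧
    (m : ℝ) ≤ Real.log X ^ C ∧ PrimePair h (6 * k - 1) ∧ AlmostTwin r (p m))).card

lemma pairTwin_eq (r C h X : ℕ) : pairTwin r C h X =
    by classical exact ((Ioc X (10 * X)).filter (Pool.Agent.K6.H45.EA.Dec2 r C h X)).card := by
  classical
  unfold pairTwin
  congr 1
  apply filter_congr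
  intro n _
  unfold Pool.Agent.K6.H45.EA.Dec2 Pool.Agent.K6.H45.EA.pr p PrimePair
  constructor
  · rintro ⟨k, m, h1, h2, h3, h4, ⟨h5, h6⟩, h8⟩
    exact ⟨k, m, h1, h2, h3, h4, h5, h6, h8⟩
  · rintro ⟨k, m, h1, h2, h3, h4, h5, h6, h8⟩
    exact ⟨k, m, h1, h2, h3, h4, ⟨h5, h6⟩, h8⟩

open Classical in
/-- **A pair of primes and the index of an almost twin prime.** -/
theorem result : ∃ (r C : ℕ) (δ : ℝ), 0 < δ ∧ ∃ H₀ : ℕ, ∀ H : ℕ, H₀ ≤ H → ∃ c : ℝ, 0 < c ∧
    ∀ᶠ X : ℕ in atTop,
      δ * H ≤ (((Icc 1 H).filter (fun h =>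
        c * X / Real.log (Real.log (Real.log (Real.log X))) ^ C ≤ (pairTwin r C h X : ℝ))).card : ℝ) := by
  obtain ⟨r2, h2⟩ := Pool.Agent.K6.H45.EA.type2
  obtain ⟨C2, δ2, hδ2, H2, h2⟩ := h2 r2 le_rfl
  refine ⟨2 * r2, C2, δ2, hδ2, H2, fun H hH => ?_⟩
  obtain ⟨c2, hc2, h2⟩ := h2 H hH
  refine ⟨c2, hc2, ?_⟩
  filter_upwards [h2] with X h2
  refine h2.trans ?_
  rw [Nat.cast_le]
  apply card_le_card
  intro h hh
  obtain ⟨e1, e2⟩ := mem_filter.1 hh
  refine mem_filter.2 ⟨e1, ?_⟩
  rw [pairTwin_eq]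
  unfold Pool.Agent.K6.H45.EA.l4 at e2
  exact e2

end Pool.Agent.Results.MP_ea8352_nt.PairPlusTwin
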